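import Pool.Agent.Helper52.SX.Goals
import Pool.Agent.Helper42.CS.STP

/-!
# Project SX, packet STT: one step of the search, for several lists
-/

namespace Pool.Agent.Helper65.SX

open Pool.Agent.Helper78.DT Pool.Agent.Helper51.ZP Pool.Agent.Helper65.CS Pool.Agent.Helper52.SX
open Pool.Agent.Helper42.CS (exists_ge_av getD_bt)
open scoped Classical

theorem av_fsum {Ω : Type*} [Fintype Ω] [Nonempty Ω] {β : Type*} (s : Finset β)
    (F : β → Ω → ℝ) : (av fun w => ∑ j ∈ s, F j w) = ∑ j ∈ s, av (F j) := by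
  induction s using Finset.induction_on with
  | empty => simp only [Finset.sum_empty]; exact av_const _
  | insert a s ha ih =>
    simp only [Finset.sum_insert ha]
    rw [av_add, ih]

theorem stt (hDSW : DswStmt) (hFOT : FotStmt) (hMIX : MixStmt) (hGEN : GenStmt) (hCHS : ChsStmt)
    (hASG : AsgStmt) (hOVX : OvxStmt) : SttStmt := by
  intro n r fs P al b w u0 c1 N l hW hCL hlen hnd hlt hN hc1 hb hε
  set q := al.length / 2 ^ b with hq
  set ε : ℝ := (al.length : ℝ) / N with hεd
  have hN0 : (0 : ℝ) < N := by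
    have : 0 < N := by omega
    exact_mod_cast this
  have hε0 : 0 ≤ ε := by positivity
  have hql : q ≤ al.length := Nat.div_le_self _ _
  have hbq : b * q ≤ al.length :=
    (Nat.mul_le_mul_right q (Nat.lt_two_pow_self (n := b)).le).trans (Nat.mul_div_le _ _)
  obtain ⟨Ω, iF, iN, Z, hZ, hZg⟩ := hGEN N (b * q) hN
  obtain ⟨Ω', iF', iN', Z', hZ', hZg'⟩ := hGEN N q hN
  have hZε : Bias ε Z := fun a ha => (hZ a ha).trans (by
    rw [hεd]
    exact div_le_div_of_nonneg_right (by exact_mod_cast hbq) hN0.le)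
  have hZε' : Bias ε Z' := fun a ha => (hZ' a ha).trans (by
    rw [hεd]
    exact div_le_div_of_nonneg_right (by exact_mod_cast hql) hN0.le)
  set S : Ω → Finset (Fin n) := fun ω => chs n al b (bt (Z ω)) with hS
  set g : ℝ := 2 / 2 ^ b with hg
  have hg0 : 0 ≤ g := by positivity
  have hp0 : (0 : ℝ) < 1 / 2 ^ b := by positivity
  have hp1 : (1 : ℝ) / 2 ^ b ≤ 1 := by
    rw [div_le_one (by positivity)]
    exact one_le_pow₀ (by norm_num)
  have hgA : ∀ A : Finset (Fin n), A.card < c1 + u0 → pr (fun ω => A ⊆ S ω) ≤ g ^ A.card := by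
    intro A hA
    rcases Nat.eq_zero_or_pos A.card with h0 | h0
    · rw [h0, pow_zero]
      exact pr_le_one _
    · have h1 := hCHS n b al Ω ε Z hε0 hZε hnd hlt A
      have h2 : ε ≤ (1 / 2 ^ b) ^ A.card :=
        hε.trans (pow_le_pow_of_le_one hp0.le hp1 hA.le)
      have h3 : (2 : ℝ) ≤ 2 ^ A.card := by
        calc (2 : ℝ) = 2 ^ 1 := by norm_num
          _ ≤ 2 ^ A.card := pow_le_pow_right₀ (by norm_num) h0
      have h4 : g ^ A.card = 2 ^ A.card * (1 / 2 ^ b) ^ A.card := by
        rw [hg, ← mul_pow]; congr 1; ring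
      have h5 : (0 : ℝ) < (1 / 2 ^ b) ^ A.card := by positivity
      calc pr (fun ω => A ⊆ S ω) ≤ (1 / 2 ^ b) ^ A.card + ε := h1
        _ ≤ 2 * (1 / 2 ^ b) ^ A.card := by linarith
        _ ≤ 2 ^ A.card * (1 / 2 ^ b) ^ A.card := mul_le_mul_of_nonneg_right h3 h5.le
        _ = g ^ A.card := h4.symm
  set B : ℝ := (l : ℝ) * ((w : ℝ) * g) ^ u0 +
    ∑ u ∈ Finset.Ico c1 (c1 + u0), (8 * (w : ℝ) * g) ^ u with hB
  have hD : ∀ j, (av fun ω => pr fun z => c1 ≤ dep (fs j) (rs (S ω) z)) ≤ B := by
    intro j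
    refine (hDSW (Fin n) Ω S (fs j) w u0 c1 g hg0 (hW j) (hCL j) hc1 hgA).trans ?_
    rw [hB]
    have h4 : ((fs j).length : ℝ) ≤ l := by exact_mod_cast hlen j
    have h5 : ((fs j).length : ℝ) * ((w : ℝ) * g) ^ u0 ≤ (l : ℝ) * ((w : ℝ) * g) ^ u0 :=
      mul_le_mul_of_nonneg_right h4 (by positivity)
    linarith
  -- the probabilities
  set yy : Ω' → List Bool := fun ω' => List.ofFn fun i => z2b (Z' ω' i) with hyy
  set rr : Ω → List Bool := fun ω => List.ofFn fun i => z2b (Z ω i) with hrr
  have hSr : ∀ ω, (chs n al b fun i => (rr ω).getD i false) = S ω := by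
    intro ω
    rw [hrr, hS]
    congr 1
    exact getD_bt _
  set Pw : Ω → Ω' → ℝ := fun ω ω' =>
    pr (fun x : Fin n → Bool => P (fun j => ev (fs j) (ovr (ex al b (rr ω) (yy ω')) x)) = true)
    with hPw
  have hstep : ∀ ω, pr (fun x : Fin n → Bool => P (fun j => ev (fs j) x) = true) ≤
      (av fun ω' => Pw ω ω') + 2 ^ (r * c1) * ε +
        ∑ j, pr (fun x : Fin n → Bool => c1 ≤ dep (fs j) (rs (S ω) x)) := by
    intro ω
    set Y : Ω' → Fin n → Bool := fun ω' => ovr (ex al b (rr ω) (yy ω')) fun _ => false with hY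
    have hAI : AI (S ω) ε Y := by
      have := hASG n b al (rr ω) Ω' ε Z' hε0 hZε' hnd hlt
      rwa [hSr] at this
    have hx : ∀ x : Fin n → Bool,
        pr (fun y : Fin n → Bool => P (fun j => ev (fs j) (mx (rs (S ω) x) y)) = true) ≤
          pr (fun ω' => P (fun j => ev (fs j) (mx (rs (S ω) x) (Y ω'))) = true) +
            2 ^ (r * c1) * ε +
            ∑ j, @ite ℝ (c1 ≤ dep (fs j) (rs (S ω) x)) (Classical.propDecidable _) 1 0 := by
      intro x
      have hn : 0 ≤ (2 : ℝ) ^ (r * c1) * ε := by positivity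
      have hnn : ∀ j ∈ (Finset.univ : Finset (Fin r)), 0 ≤
          @ite ℝ (c1 ≤ dep (fs j) (rs (S ω) x)) (Classical.propDecidable _) 1 0 := by
        intro j _
        split_ifs <;> norm_num
      have hs0 := Finset.sum_nonneg hnn
      by_cases hd : ∃ j, c1 ≤ dep (fs j) (rs (S ω) x)
      · obtain ⟨j, hfd⟩ := hd
        have h1 := pr_le_one
          (fun y : Fin n → Bool => P (fun j => ev (fs j) (mx (rs (S ω) x) y)) = true)
        have h2 := pr_nonneg (fun ω' => P (fun j => ev (fs j) (mx (rs (S ω) x) (Y ω'))) = true)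
        have h3 := Finset.single_le_sum hnn (Finset.mem_univ j)
        rw [if_pos hfd] at h3
        linarith
      · push Not at hd
        have h1 := hFOT (Fin n) Ω' (S ω) ε Y r c1 fs P (rs (S ω) x) hε0 hCL (by
          intro v hv
          by_contra hvS
          unfold rs at hv
          rw [if_neg hvS] at hv
          exact absurd hv (by simp)) hAI (fun j => (hd j).le)
        have h3 := (abs_le.1 h1).1
        linarith
    have hav := av_mono hx
    rw [av_add, av_add, av_fsum] at hav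
    have e1 : (av fun x : Fin n → Bool =>
        pr (fun y : Fin n → Bool => P (fun j => ev (fs j) (mx (rs (S ω) x) y)) = true)) =
          pr (fun x : Fin n → Bool => P (fun j => ev (fs j) x) = true) := by
      have := hMIX (Fin n) (S ω)
        (fun x => @ite ℝ (P (fun j => ev (fs j) x) = true) (Classical.propDecidable _) 1 0)
      exact this
    have e2 : (av fun x : Fin n → Bool =>
        pr (fun ω' => P (fun j => ev (fs j) (mx (rs (S ω) x) (Y ω'))) = true)) =
          av fun ω' => Pw ω ω' := by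
      unfold pr
      rw [av_comm]
      refine av_congr fun ω' => ?_
      rw [hPw]
      unfold pr
      refine av_congr fun x => ?_
      have h1 : mx (rs (S ω) x) (Y ω') = ovr (ex al b (rr ω) (yy ω')) x := by
        rw [hOVX n b al (rr ω) (yy ω') x, hSr]
      beta_reduce
      rw [h1]
    have e3 : (av fun x : Fin n → Bool => (2 : ℝ) ^ (r * c1) * ε) =
        2 ^ (r * c1) * ε := av_const _
    rw [e1, e2, e3] at hav
    exact hav
  have havω := av_mono hstep
  rw [av_add, av_add, av_const, av_const, av_fsum] at havω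
  obtain ⟨ω, hω⟩ := exists_ge_av fun ω => av fun ω' => Pw ω ω'
  obtain ⟨ω', hω'⟩ := exists_ge_av fun ω' => Pw ω ω'
  refine ⟨rr ω, hZg ω, yy ω', hZg' ω', ?_⟩
  have hfin : (av fun ω => av fun ω' => Pw ω ω') ≤
      pr (fun x : Fin n → Bool =>
        P (fun j => ev (fs j) (ovr (ex al b (rr ω) (yy ω')) x)) = true) := hω.trans hω'
  have hsum : ∑ j, (av fun ω => pr fun x => c1 ≤ dep (fs j) (rs (S ω) x)) ≤ r * B := by
    have := Finset.sum_le_card_nsmul (Finset.univ : Finset (Fin r))
      (fun j => av fun ω => pr fun x => c1 ≤ dep (fs j) (rs (S ω) x)) B (fun j _ => hD j)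
    simpa using this
  linarith

end Pool.Agent.Helper65.SX
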